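import Pool.Agent.X51.Lev.Transfer

/-!
# The second symbolic power of the Stanley–Reisner ideal of a matroid is level

If all circuits of a matroid `Δ` on `[n]` have the same size then `R/I_Δ^(2)` is level.
-/

set_option autoImplicit false

namespace Pool.Agent.Results.MP_d6b0b9_al.SecondSymbolicPowerLevel

open Finset MvPolynomial

universe u

variable {n : ℕ} {K : Type u} [Field K]

/-- The Stanley–Reisner ideal `I_Δ = (x_F : F ∉ Δ)` of the complex `Δ` of independent sets of the
matroid `M` on `[n]`. -/
noncomputable def stanleyReisner (K : Type u) [Field K] (M : Matroid (Fin n)) :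
    Ideal (MvPolynomial (Fin n) K) :=
  Ideal.span {p | ∃ F : Finset (Fin n), ¬ M.Indep (F : Set (Fin n)) ∧ p = ∏ i ∈ F, X i}

/-- The symbolic power `I^(m)` of a radical ideal: the intersection of the `m`-th powers of its
minimal primes. -/
noncomputable def symbolicPower (I : Ideal (MvPolynomial (Fin n) K)) (m : ℕ) :
    Ideal (MvPolynomial (Fin n) K) :=
  ⨅ P ∈ I.minimalPrimes, P ^ m

/-- The differential of the Koszul complex of `x_1, …, x_n`. A chain `∑_T f_T e_T` is given by its
coefficients `f T`, `T` a set of variables; `koszulD f T` is the coefficient of `e_T` in its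
boundary. -/
noncomputable def koszulD (f : Finset (Fin n) → MvPolynomial (Fin n) K) (T : Finset (Fin n)) :
    MvPolynomial (Fin n) K :=
  ∑ j ∈ Tᶜ, (-1) ^ (T.filter (· < j)).card * (MvPolynomial.X j * f (insert j T))

/-- `Tor_i^R(R/J, K)_d ≠ 0`, where `Tor` is computed as the homology of the Koszul complex of
`x_1, …, x_n` with coefficients in `R/J` (chains are given by lifts of their coefficients to `R`,
`e_T` has degree `|T|`): there is an `i`-chain, homogeneous of degree `d`, whose boundary has all
its coefficients in `J`, and which is not the boundary of an `(i + 1)`-chain modulo `J`. -/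
def TorNe (J : Ideal (MvPolynomial (Fin n) K)) (i d : ℕ) : Prop :=
  ∃ f : Finset (Fin n) → MvPolynomial (Fin n) K,
    (∀ T, ∀ c ∈ (f T).support, ∑ v, c v + T.card = d) ∧
    (∀ T, T.card ≠ i → f T = 0) ∧ (∀ T, koszulD f T ∈ J) ∧
    ¬ ∃ g : Finset (Fin n) → MvPolynomial (Fin n) K,
      (∀ T, T.card ≠ i + 1 → g T = 0) ∧ ∀ T, f T - koszulD g T ∈ J

/-- `R/J` is level: with `c` the height (= grade) of `J`, `Tor_i(R/J, K) = 0` for all `i > c` (this
is the Cohen–Macaulay property) and `Tor_c(R/J, K)` is concentrated in a single degree `D`. -/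
def IsLevel (J : Ideal (MvPolynomial (Fin n) K)) : Prop :=
  ∃ c D : ℕ, J.height = c ∧ (∀ i d, c < i → ¬ TorNe J i d) ∧ ∀ d, TorNe J c d → d = D

/-- For every field `K` and every matroid `M` on `[n]` all of whose circuits have the same number
`r` of elements, `R/I_Δ^(2)` is level (and in particular Cohen–Macaulay). -/
theorem result : ∀ (K : Type u) [Field K] (n : ℕ) (M : Matroid (Fin n)), M.E = Set.univ →
    ∀ r : ℕ, (∀ C : Set (Fin n), M.IsCircuit C → C.ncard = r) →
      IsLevel (symbolicPower (stanleyReisner K M) 2) := by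
  intro K _ n M hE r hr
  exact Pool.Agent.X51.Lev.level_main hE hr

end Pool.Agent.Results.MP_d6b0b9_al.SecondSymbolicPowerLevel
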